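import Pool.Agent.Helper84.HM.Res
import Pool.Agent.Helper55.HM.Stems
import Pool.Agent.Helper68.HM.SubAlg

/-!
# HM-E3: the conditions `c ⊓ hcond (hech β) s g` are dense in the next subalgebra
-/

set_option autoImplicit false
set_option linter.unusedSectionVars false

namespace Pool.Agent.Helper33.HM

universe u

namespace Raw

variable {I : Type u} [LinearOrder I]

theorem h12_glue_of_lt (i : I) (q p : Raw I) (hp : p.lt i) : glue i q p = q := by
  cases p with
  | one => rfl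
  | cons p j s m f v => exact if_pos hp

theorem h12_entry_glue (i : I) (q : Raw I) {p p' : Raw I} (hp : p.WF) {j : I} (hij : i ≤ j)
    {s : List ℕ} {m : ℕ} {f : ℕ → ℕ → ℕ → Raw I} {v : ℕ → ℕ → ℕ → ℕ}
    (h : Entry p j p' s m f v) : Entry (glue i q p) j (glue i q p') s m f v := by
  induction p with
  | one => exact h.elim
  | cons p1 i1 s1 m1 f1 v1 ih _ =>
    have hji : j ≤ i1 := by
      rcases h with ⟨h1, _⟩ | h'
      · exact h1.le
      · exact (((Entry.facts hp.1 h').2.2.2 i1 hp.2.1)).le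
    have h2 : ¬ i1 < i := not_lt.2 (hij.trans hji)
    rw [glue, if_neg h2]
    rcases h with ⟨rfl, rfl, rfl, rfl, rfl, rfl⟩ | h
    · exact Or.inl ⟨rfl, rfl, rfl, rfl, rfl, rfl⟩
    · exact Or.inr (ih hp.1 h)

end Raw

namespace Cond

variable {I : Type u} [LinearOrder I] [WellFoundedLT I]

/-- Replacing the part of `p` below `i` does not change the entry at `i`. -/
theorem h12_ent_glue {i : I} {q p p' : Cond I} (hq : q.lt i) {s : List ℕ} {m : ℕ}
    {f : ℕ → ℕ → ℕ → Cond I} {v : ℕ → ℕ → ℕ → ℕ} (h : Ent p i p' s m f v) :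
    Ent (glue i q p hq) i q s m f v := by
  have h1 := Raw.h12_entry_glue i q.1 p.2 (le_refl i) h
  rw [Raw.h12_glue_of_lt i q.1 p'.1 (Raw.Entry.facts p.2 h).2.1] at h1
  exact h1

/-- A condition with last entry at `i`. -/
theorem h12_eq_cons {i j : I} {p p' : Cond I} (hp : p.lt j) (hij : ∀ k, k < j → k ≤ i)
    {s : List ℕ} {m : ℕ} {f : ℕ → ℕ → ℕ → Cond I} {v : ℕ → ℕ → ℕ → ℕ}
    (h : Ent p i p' s m f v) (h1 : p'.lt i) (h2 : ∀ l n k, (f l n k).lt i) :
    p = cons p' i h1 s m f h2 v := by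
  apply Subtype.ext
  obtain ⟨p, hpw⟩ := p
  cases p with
  | one => exact h.elim
  | cons p1 i1 s1 m1 f1 v1 =>
    rcases h with ⟨rfl, e1, rfl, rfl, e2, rfl⟩ | h'
    · show Raw.cons p1 _ _ _ f1 _ = Raw.cons p'.1 _ _ _ _ _
      rw [← e1, ← e2]
    · exfalso
      have h3 : i < i1 := (Raw.Entry.facts hpw.1 h').2.2.2 i1 hpw.2.1
      exact absurd (hij i1 hp) (not_le.2 h3)

end Cond

section

variable {I : Type u} [LinearOrder I] [WellFoundedLT I]

theorem h12_mem_gen_of_le {A : Set (Cond I)} {p a : Cond I} (ha : a ∈ A) (h : p ≤ a) :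
    p ∈ RO.gen A := fun q hq => ⟨q, le_rfl, a, ha, hq.trans h⟩

theorem h12_gen_mono {A A' : Set (Cond I)} (h : A ⊆ A') : RO.gen A ≤ RO.gen A' := by
  intro p hp q hq
  obtain ⟨r, hr, a, ha, hra⟩ := hp q hq
  exact ⟨r, hr, a, h ha, hra⟩

/-- The value of `d(n) ≤ k` for a condition whose stem is longer than `n`. -/
theorem h12_mem_hech {i : I} {q q' : Cond I} {t : List ℕ} {m : ℕ} {f : ℕ → ℕ → ℕ → Cond I}
    {v : ℕ → ℕ → ℕ → ℕ} (h : Cond.Ent q i q' t m f v) {n : ℕ} (hn : n < t.length) (k : ℕ) :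
    q ∈ hech i n k ↔ t[n] ≤ k := by
  constructor
  · intro hq
    obtain ⟨r, hrq, a, ⟨a', s, m', f', v', hea, hns, hk⟩, hra⟩ := hq q le_rfl
    obtain ⟨r', u, m2, g, w, her, htu, -, -⟩ := Cond.le_iff.1 hrq i q' t m f v h
    obtain ⟨r2, u2, m3, g2, w2, her2, hsu, -, -⟩ := Cond.le_iff.1 hra i a' s m' f' v' hea
    obtain ⟨-, rfl, -, -, -⟩ := Cond.ent_unique her her2
    rw [List.IsPrefix.getElem htu hn, ← List.IsPrefix.getElem hsu hns]
    exact hk
  · intro hk
    exact h12_mem_gen_of_le (a := q) ⟨q', t, m, f, v, h, hn, hk⟩ le_rfl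

end

theorem h12_hech_dense_aux (β : Ordinal.{0}) {b : RO (Cond Ordinal.{0})}
    {p p' : Cond Ordinal.{0}} (hpb : p ∈ b)
    (hplt : p.lt (Order.succ β)) {s : List ℕ} {m : ℕ} {f : ℕ → ℕ → ℕ → Cond Ordinal.{0}}
    {v : ℕ → ℕ → ℕ → ℕ} (he : Cond.Ent p β p' s m f v) :
    ∃ c ∈ SubI β, c ≠ ⊥ ∧ ∃ s g, IsFn (SubI β) g ∧ c ⊓ hcond (hech β) s g ≤ b := by
  obtain ⟨-, hp'lt, hflt, -⟩ := Cond.ent_facts he
  have hsucc : ∀ k : Ordinal.{0}, k < Order.succ β → k ≤ β := fun k hk => Order.lt_succ_iff.1 hk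
  let A : ℕ → ℕ → Set (Cond Ordinal.{0}) := fun n k =>
    {q | q.lt β ∧ ∀ l < m, Cond.Frc β q (f l n) (v l n) k}
  refine ⟨RO.gen {p'}, gen_mem_sub (by rintro a rfl; exact hp'lt), ?_, s,
    fun n k => RO.gen (A n k), ⟨?_, ?_, ?_⟩, ?_⟩
  · exact RO.ne_bot_iff.2 ⟨p', h12_mem_gen_of_le (Set.mem_singleton p') le_rfl⟩
  · intro n k
    exact gen_mem_sub fun a ha => ha.1
  · intro n k
    exact h12_gen_mono fun q hq =>
      ⟨hq.1, fun l hl => Cond.frc_mono le_rfl (Nat.le_succ k) (hq.2 l hl)⟩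
  · intro n
    apply RO.ext'
    intro q
    refine ⟨fun _ => RO.mem_top q, fun _ => RO.mem_iSup.2 fun q1 _ => ?_⟩
    obtain ⟨q2, hq2, hq21, N, hN⟩ := Cond.exists_frc β (Cond.res_lt q1 β) m (fun l => f l n)
      (fun l => v l n)
    refine ⟨Cond.glue β q2 q1 hq2, Cond.glue_le_right β q2 q1 hq2 hq21, N, ?_⟩
    exact h12_mem_gen_of_le (a := q2) ⟨hq2, hN⟩ (Cond.glue_le_left β q2 q1 hq2)
  · intro q0 hq0
    refine RO.mem_reg fun q1 hq1 => ?_
    have hmem1 := RO.mem_lower hq1 hq0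
    obtain ⟨q2, hq21, _, rfl, hq2p⟩ := hmem1.1 q1 le_rfl
    obtain ⟨q3, hq32, q3', t, m1, f1, v1, he3, hst⟩ := Cond.exists_long_stem q2 β s.length
    have hmem3 := RO.mem_lower (hq32.trans hq21) hmem1
    obtain ⟨-, hstem, hval⟩ := hmem3
    -- the stem
    have hval' : ∀ q, q ≤ q3 → ∀ n, s.length ≤ n → ∀ k, q ∈ hech β n k →
        q ∈ RO.gen (A n k) := by
      intro q hq n hn k hk
      have h1 := RO.mem_iInf.1 (RO.mem_iInf.1 (RO.mem_iInf.1 hval n) hn) k
      exact RO.mem_himp.1 h1 q hq hk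
    have hpre : ∀ (i : ℕ) (hi : i < s.length), s[i] = t[i]'(hi.trans hst) := by
      intro i hi
      have h1 := RO.mem_iInf.1 (RO.mem_iInf.1 hstem i) hi
      have h2 := (h12_mem_hech he3 (hi.trans hst) s[i]).1 h1.1
      refine le_antisymm ?_ h2
      by_contra hcon
      have h3 := RO.mem_iInf.1 (RO.mem_iInf.1 h1.2 (t[i]'(hi.trans hst))) (not_le.1 hcon)
      exact RO.mem_compl.1 h3 q3 le_rfl ((h12_mem_hech he3 (hi.trans hst) _).2 le_rfl)
    have hprefix : s <+: t := by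
      rw [List.prefix_iff_eq_take]
      apply List.ext_getElem
      · rw [List.length_take]
        omega
      · intro i h1 h2
        rw [List.getElem_take]
        exact hpre i h1
    -- forcing the side conditions
    have hstep : ∀ N, N ≤ t.length → ∃ q, q ≤ q3 ∧ Cond.Ent q β (q.res β) t m1 f1 v1 ∧
        ∀ (n : ℕ) (h : n < t.length), s.length ≤ n → n < N → ∀ l < m,
          Cond.Frc β (q.res β) (f l n) (v l n) t[n] := by
      intro N
      induction N with
      | zero =>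
        intro _
        refine ⟨q3, le_rfl, ?_, fun n _ _ hn => absurd hn (Nat.not_lt_zero n)⟩
        rw [← (Cond.ent_facts he3).1]
        exact he3
      | succ N ih =>
        intro hN
        obtain ⟨q, hq, heq, hfrc⟩ := ih (Nat.le_of_succ_le hN)
        by_cases hsN : s.length ≤ N
        · have hNt : N < t.length := hN
          have h1 : q ∈ hech β N t[N] := (h12_mem_hech heq hNt _).2 le_rfl
          obtain ⟨r, hrq, a, ⟨halt, ha⟩, hra⟩ := hval' q hq N hsN _ h1 q le_rfl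
          have hrlt := Cond.res_lt r β
          have hrq' : r.res β ≤ q.res β := Cond.res_mono hrq β
          have hra' : r.res β ≤ a := by
            have := Cond.res_mono hra β
            rwa [Cond.res_of_lt halt] at this
          have hres := Cond.res_glue β (r.res β) q hrlt
          refine ⟨Cond.glue β (r.res β) q hrlt,
            (Cond.glue_le_right β _ q hrlt hrq').trans hq, ?_, ?_⟩
          · rw [hres]
            exact Cond.h12_ent_glue hrlt heq
          · intro n hn hsn hnN l hl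
            rw [hres]
            rcases Nat.lt_succ_iff_lt_or_eq.1 hnN with h | rfl
            · exact Cond.frc_mono hrq' le_rfl (hfrc n hn hsn h l hl)
            · exact Cond.frc_mono hra' le_rfl (ha l hl)
        · refine ⟨q, hq, heq, fun n hn hsn hnN l hl => ?_⟩
          omega
    obtain ⟨q, hq, heq, hfrc⟩ := hstep t.length le_rfl
    obtain ⟨-, hreslt, hf1lt, -⟩ := Cond.ent_facts heq
    -- the condition with both sets of names
    let F : ℕ → ℕ → ℕ → Cond Ordinal.{0} := fun l => if l < m1 then f1 l else f (l - m1)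
    let V : ℕ → ℕ → ℕ → ℕ := fun l => if l < m1 then v1 l else v (l - m1)
    have hF : ∀ l n k, (F l n k).lt β := by
      intro l n k
      by_cases h : l < m1
      · simp only [F, if_pos h]
        exact hf1lt l n k
      · simp only [F, if_neg h]
        exact hflt _ n k
    let r0 : Cond Ordinal.{0} := Cond.cons (q.res β) β hreslt t (m1 + m) F hF V
    have her0 : Cond.Ent r0 β (q.res β) t (m1 + m) F V := Cond.ent_cons.2
      (Or.inl ⟨rfl, rfl, rfl, rfl, rfl, rfl⟩)
    have hr0lt : r0.lt (Order.succ β) := Cond.lt_cons.2 (Order.lt_succ β)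
    have hr0q : r0 ≤ q.res β := (Cond.le_cons_iff.1 (le_refl r0)).1
    have hr0q' : r0 ≤ q.res (Order.succ β) := by
      have he1 : Cond.Ent (q.res (Order.succ β)) β (q.res β) t m1 f1 v1 :=
        Cond.ent_res.2 ⟨Order.lt_succ β, heq⟩
      rw [Cond.h12_eq_cons (Cond.res_lt q (Order.succ β)) hsucc he1 hreslt hf1lt]
      refine Cond.le_cons_iff.2 ⟨hr0q, q.res β, t, m1 + m, F, V, her0, List.prefix_rfl, ?_, ?_⟩
      · intro l hl
        exact ⟨l, Nat.lt_add_right m hl, if_pos hl, if_pos hl⟩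
      · intro n hn hn'
        omega
    have hr0p : r0 ≤ p := by
      rw [Cond.h12_eq_cons hplt hsucc he hp'lt hflt]
      refine Cond.le_cons_iff.2 ⟨?_, q.res β, t, m1 + m, F, V, her0, hprefix, ?_, ?_⟩
      · refine hr0q.trans ?_
        have := Cond.res_mono (hq.trans (hq32.trans hq2p)) β
        rwa [Cond.res_of_lt hp'lt] at this
      · intro l hl
        refine ⟨m1 + l, Nat.add_lt_add_left hl m1, ?_, ?_⟩
        · simp only [F, if_neg (Nat.not_lt.2 (Nat.le_add_right m1 l)), Nat.add_sub_cancel_left]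
        · simp only [V, if_neg (Nat.not_lt.2 (Nat.le_add_right m1 l)), Nat.add_sub_cancel_left]
      · intro n hn hsn l hl
        exact hfrc n hn hsn hn l hl
    refine ⟨Cond.glue (Order.succ β) r0 q hr0lt,
      (Cond.glue_le_right _ r0 q hr0lt hr0q').trans (hq.trans (hq32.trans hq21)), ?_⟩
    exact RO.mem_lower ((Cond.glue_le_left _ r0 q hr0lt).trans hr0p) hpb

theorem hech_dense (β : Ordinal.{0}) {b : RO (Cond Ordinal.{0})} (hb : b ∈ SubI (Order.succ β))
    (hb0 : b ≠ ⊥) :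
    ∃ c ∈ SubI β, c ≠ ⊥ ∧ ∃ s g, IsFn (SubI β) g ∧ c ⊓ hcond (hech β) s g ≤ b := by
  obtain ⟨p0, hp0⟩ := RO.ne_bot_iff.1 hb0
  have hpb : p0.res (Order.succ β) ∈ b := (hb p0).1 hp0
  have hplt := Cond.res_lt p0 (Order.succ β)
  obtain ⟨p, hpdef⟩ : ∃ p, p = p0.res (Order.succ β) := ⟨_, rfl⟩
  rw [← hpdef] at hpb hplt
  by_cases h : ∃ p' s m f v, Cond.Ent p β p' s m f v
  · obtain ⟨p', s, m, f, v, he⟩ := h
    exact h12_hech_dense_aux β hpb hplt he
  · -- no entry at `β`: the condition is already of length `β`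
    obtain ⟨q, hq, q', s, m, f, v, he, -⟩ := Cond.exists_long_stem p β 0
    have hsucc : ∀ k : Ordinal.{0}, k < Order.succ β → k ≤ β :=
      fun k hk => Order.lt_succ_iff.1 hk
    have hqb : q.res (Order.succ β) ∈ b := (hb q).1 (RO.mem_lower hq hpb)
    exact h12_hech_dense_aux β hqb (Cond.res_lt q (Order.succ β))
      (Cond.ent_res.2 ⟨Order.lt_succ β, he⟩)

end Pool.Agent.Helper33.HM
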