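import Pool.Agent.Helper12.HM.MainCoreOf
import Pool.Agent.Helper23.HM.GoodAll

/-!
# HM-M1: the dichotomy at a stage closed under witnesses
-/

set_option autoImplicit false
set_option linter.unusedSectionVars false

namespace Pool.Agent.Helper33.HM

/-- the dichotomy at a stage `α` closed under witnesses -/
theorem main_core {B : Type 1} [CompleteBooleanAlgebra B] (I : HIter B) (E : (ℕ → B) → B)
    (_hE : IsSetName E) (α : Ordinal.{0})
    (hw : ∀ P : ℕ → List Bool → B, (∀ n σ, P n σ ∈ I.S α) → (∀ n, fat (P n) = ⊤) →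
      ∃ F : ℕ → List Bool → B, (∀ k σ, F k σ ∈ I.S α) ∧ (∀ k, IsPr (F k)) ∧ covV E F = ⊤ ∧
        ∀ k n, nwdV (F k) (P n) = ⊤) (x : ℕ → B) :
    E x ≤ ⨆ Z : List Bool → B, ⨆ _ : (∀ σ, Z σ ∈ I.S α) ∧ IsPr Z ∧ nullV Z = ⊤, memV x Z :=
  h12_main_core_of I E α (good_univ I α) hw x

end Pool.Agent.Helper33.HM
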