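import Pool.Agent.Helper33.HM.Tools
import Pool.Agent.Helper87.HM.FatKernel

/-!
# HM-M1: the dichotomy at a stage closed under witnesses
-/

set_option autoImplicit false
set_option linter.unusedSectionVars false

namespace Pool.Agent.Helper33.HM

section LM1

variable {B : Type 1} [CompleteBooleanAlgebra B]

theorem h12_cyl_snoc (x : ℕ → B) (σ : List Bool) (b : Bool) :
    cyl x (σ ++ [b]) = cyl x σ ⊓ (if b then x σ.length else (x σ.length)ᶜ) := by
  apply le_antisymm
  · refine le_inf ?_ ?_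
    · refine le_iInf fun i => le_iInf fun h => ?_
      have h' : i < (σ ++ [b]).length := by
        rw [List.length_append]
        exact lt_of_lt_of_le h (Nat.le_add_right _ _)
      refine (iInf_le_of_le i (iInf_le _ h')).trans (le_of_eq ?_)
      rw [List.getElem_append_left h]
    · have h' : σ.length < (σ ++ [b]).length := by
        rw [List.length_append]
        exact Nat.lt_succ_self _
      refine (iInf_le_of_le σ.length (iInf_le _ h')).trans (le_of_eq ?_)
      simp
  · refine le_iInf fun i => le_iInf fun h => ?_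
    by_cases hi : i < σ.length
    · refine (inf_le_left.trans (iInf_le_of_le i (iInf_le _ hi))).trans (le_of_eq ?_)
      rw [List.getElem_append_left hi]
    · have hi' : i = σ.length := by
        rw [List.length_append] at h
        have : i < σ.length + 1 := h
        omega
      subst hi'
      refine inf_le_right.trans (le_of_eq ?_)
      simp

theorem h12_isPr_cyl (x : ℕ → B) : IsPr (cyl x) := by
  intro σ
  rw [h12_cyl_snoc, h12_cyl_snoc, ← inf_sup_left]
  simp

/-- the dichotomy at a stage `α` closed under witnesses, from the dichotomy for all names -/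
theorem h12_main_core_of (I : HIter B) (E : (ℕ → B) → B) (α : Ordinal.{0})
    (hgood : Good (I.S α) Set.univ)
    (hw : ∀ P : ℕ → List Bool → B, (∀ n σ, P n σ ∈ I.S α) → (∀ n, fat (P n) = ⊤) →
      ∃ F : ℕ → List Bool → B, (∀ k σ, F k σ ∈ I.S α) ∧ (∀ k, IsPr (F k)) ∧ covV E F = ⊤ ∧
        ∀ k n, nwdV (F k) (P n) = ⊤) (x : ℕ → B) :
    E x ≤ ⨆ Z : List Bool → B, ⨆ _ : (∀ σ, Z σ ∈ I.S α) ∧ IsPr Z ∧ nullV Z = ⊤, memV x Z := by
  set V : B := ⨆ Z : List Bool → B, ⨆ _ : (∀ σ, Z σ ∈ I.S α) ∧ IsPr Z ∧ nullV Z = ⊤, memV x Z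
    with hV
  refine le_of_forall_meets fun b hb hbE hbV => ?_
  obtain ⟨c, -, hc, hcb, h⟩ :=
    hgood (cyl x) (fun _ => trivial) (h12_isPr_cyl x) b trivial hb
  have hcV : c ⊓ V = ⊥ := le_bot_iff.1 ((inf_le_inf_right V hcb).trans hbV.le)
  rcases h with ⟨Z, hZ, hZpr, hZnull, hcZ⟩ | ⟨K, hK, hKpr, hKnull, hKF⟩
  · have h1 : c ≤ V := by
      refine hcZ.trans ?_
      rw [hV]
      exact le_iSup_of_le Z (le_iSup_of_le ⟨hZ, hZpr, hZnull⟩ le_rfl)
    exact hc (by rw [← hcV]; exact (inf_eq_left.2 h1).symm)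
  · choose P hPS hPpr hPfat hPtop hPK using fun n =>
      exists_fat_kernel (I.sub α) (hK n) (hKpr n) (hKnull n)
    obtain ⟨F, hFS, hFpr, hFcov, hFnwd⟩ := hw P hPS hPfat
    have h1 : E x ≤ ⨆ k : ℕ, memV x (F k) := by
      have h2 : (⊤ : B) ≤ E x ⇨ ⨆ k : ℕ, memV x (F k) := by
        rw [← hFcov]
        exact iInf_le _ x
      rw [le_himp_iff, top_inf_eq] at h2
      exact h2
    obtain ⟨k, hk⟩ := exists_inf_ne_bot hc ((hcb.trans hbE).trans h1)
    obtain ⟨n, hn⟩ := exists_inf_ne_bot hk (hKF (F k) (hFS k) (hFpr k))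
    have h3 : (⊤ : B) ≤ P n [] ⇨ ⨆ τ : List Bool, ⨆ _ : ([] : List Bool) <+: τ,
        P n τ ⊓ (F k τ)ᶜ := by
      rw [← hFnwd k n]
      exact iInf_le _ []
    rw [hPtop, top_himp] at h3
    obtain ⟨τ, hτ⟩ := exists_inf_ne_bot hn (le_top.trans h3)
    obtain ⟨-, hτ'⟩ := exists_inf_ne_bot hτ inf_le_right
    apply hτ'
    rw [eq_bot_iff]
    have h4 : subV (K n) (F k) ≤ P n τ ⇨ F k τ :=
      (iInf_le _ τ).trans (himp_le_himp_right (hPK n τ))
    have h5 : subV (K n) (F k) ⊓ P n τ ≤ F k τ := (inf_le_inf_right _ h4).trans himp_inf_le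
    calc _ ≤ (subV (K n) (F k) ⊓ P n τ) ⊓ (F k τ)ᶜ := by
          refine le_inf (le_inf ?_ ?_) ?_
          · exact inf_le_left.trans (inf_le_left.trans inf_le_right)
          · exact inf_le_right.trans inf_le_left
          · exact inf_le_right.trans inf_le_right
      _ ≤ F k τ ⊓ (F k τ)ᶜ := inf_le_inf_right _ h5
      _ = ⊥ := inf_compl_eq_bot

end LM1

end Pool.Agent.Helper33.HM
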